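import Mathlib
import Pool.Agent.helper825_CS.Fin

set_option autoImplicit false

/-!
# Large least primes in every coset of a subgroup of the reduced residues modulo a prime

Let `f(x) = log x (log₂ x)² log₄ x / (log₃ x)²` (iterated natural logarithms) and let `p(q, a)` be the least prime
`≡ a (mod q)`. The starting file `MP_458f0b_nt.RecordModuli` gives `max_a p(q, a) ≥ c q f(q)` for large primes `q`
(and many other moduli), the starting file `MP_458f0b_nt.AlmostPrimeFreeClasses` such an `a` in every interval of
length `q^θ`. We ask how the classes `a` with a large least prime are distributed in the GROUP of reduced residues: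
for a prime `q`, every coset of every subgroup `H` of index `k` contains an `a` with `p(q, a) > c q f(q)`, and such an
`a` lies in every interval of length `k q^(1/2 + ε)` inside `[1, q]`. For example (`k = 2`) there are quadratic
residues and non-residues `a` with `p(q, a) > c q f(q)` in every interval of length `2 q^(1/2 + ε)`; the statement is
non-trivial for `k` up to `q^(1/2 - ε)`.

Method. The coset has Gauss sums `≤ √q`, so that its elements in an interval are equidistributed modulo all `m ≤ q^ε`
(`helper825_CS.interval_count`), which is all that the covering sieve of the starting files needs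
(`helper825_SB.gen0S`). With `u q ≡ 1 (mod m)` for all the `m` in question, `m ∣ a + k q` becomes `m ∣ a u + k`.
-/

namespace Pool.Agent.Results.MP_458f0b_nt.LeastPrimesInCosets

/-- The record scale `f(x) = log x (log₂ x)² log₄ x / (log₃ x)²` (iterated natural logarithms). -/
noncomputable def f (x : ℝ) : ℝ :=
  Real.log x * (Real.log (Real.log x)) ^ 2 * Real.log (Real.log (Real.log (Real.log x))) /
    (Real.log (Real.log (Real.log x))) ^ 2

/-- For every `ε > 0` there are `c > 0` and `q₀` such that for all primes `q ≥ q₀`, every coset `g H` of every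
subgroup `H` of `(ℤ/qℤ)ˣ` and all `N, L` with `N + L ≤ q` and `L ≥ [(ℤ/qℤ)ˣ : H] q^(1/2 + ε)` there is an integer `a`
with `N < a ≤ N + L` whose class modulo `q` is in `g H` such that every prime `p ≡ a (mod q)` is greater than
`c q f(q)`. -/
theorem result (ε : ℝ) (hε : 0 < ε) : ∃ c : ℝ, 0 < c ∧ ∃ q₀ : ℕ, ∀ q : ℕ, q₀ ≤ q → q.Prime →
    ∀ (H : Subgroup (ZMod q)ˣ) (g : (ZMod q)ˣ) (N L : ℕ), N + L ≤ q →
    (H.index : ℝ) * (q : ℝ) ^ (1 / 2 + ε) ≤ L →
    ∃ a : ℕ, N < a ∧ a ≤ N + L ∧ (∃ h ∈ H, (a : ZMod q) = ((g * h : (ZMod q)ˣ) : ZMod q)) ∧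
      ∀ p : ℕ, p.Prime → p ≡ a [MOD q] → c * (q * f q) < p :=
  Pool.Agent.helper825_CS.least ε hε

end Pool.Agent.Results.MP_458f0b_nt.LeastPrimesInCosets
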