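import Pool.Agent.H602SS.FinalD

set_option autoImplicit false

/-!
# Record least primes in the residue classes of popular sums of three arbitrary dense sets

Let `f(x) = log x (log₂ x)² log₄ x / (log₃ x)²`. For a modulus `d` without prime factors `≤ d ^ η` (for instance
a prime modulus) some residue class prime to `d` has a least prime `p(d, n) > κ φ(d) f(d)` (starting files,
`RecordModuli`, for almost all moduli); `φ(d) ∼ d` for these `d`. We show that such classes are found in the sum
of ANY three dense sets.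

A finite set of integers is *dense at the scale `N`* if it is a set of at least `δ N` elements of an interval of
`N` integers, or a set of at least `δ N / log N` numbers `x + p`, or `x - p`, with `p ≤ N` prime (`x` fixed);
nothing else is assumed of it. Let `A`, `B`, `C` be dense at a scale `N` with `d ^ γ ≤ N ≤ d`. There are at
least `N ^ (1 - ε)` reduced residue classes `n` modulo `d` such that

* `n` has `≫ |A| |B| |C| / N` representations `n ≡ a + b + c` modulo `d` with `a ∈ A`, `b ∈ B`, `c ∈ C`, and
* all primes `q ≡ n` modulo `d` are larger than `κ d f(d)`.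

For instance: if `d` is a large prime, then every set of `δ d` residue classes modulo `d` contains three whose sum
is such a class (theorem `classes`); every set of `δ d / log d` primes below `d` contains three whose sum lies in
such a class; and the sets may lie in short intervals of length `d ^ γ`.

Method. As in `MP_028722_nt.SumsOfThreeDenseSets` (large spectra, by a restriction theorem for the primes): there is
a set `S` of boundedly many primes such that every residue class modulo the product `P` of the primes `p ≤ c log N`,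
`p ∉ S`, contains integers with many representations, and the number of the representations is almost unchanged
under the translations by the multiples of `P r`, for a common approximate period `r`. Here the class is chosen such
that the small primes sift a window of the progression `n + i d`, `|i| ≤ κ f(d)`, and the numbers that are left are
covered by larger primes with the covering theorem of the starting files.
-/

open Finset

namespace Pool.Agent.Results.MP_458f0b_nt.SumsOfThreeDenseSets

/-- The record scale `f(x) = log x (log₂ x)² log₄ x / (log₃ x)²` (iterated natural logarithms). -/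
noncomputable def f (x : ℝ) : ℝ :=
  Real.log x * (Real.log (Real.log x)) ^ 2 * Real.log (Real.log (Real.log (Real.log x))) /
    (Real.log (Real.log (Real.log x))) ^ 2

/-- `A` is dense at the scale `N`: either `A` is a set of at least `δ N` elements of an interval of `N`
integers, or `A` is a set of at least `δ N / log N` integers of the form `x + p`, or of the form `x - p`, with
`p ≤ N` prime and `x` fixed. -/
def Dense (δ : ℝ) (N : ℕ) (A : Finset ℤ) : Prop :=
  (∃ x : ℤ, A ⊆ Ioc x (x + N) ∧ δ * N ≤ A.card) ∨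
  ∃ x s : ℤ, (s = 1 ∨ s = -1) ∧ (∀ a ∈ A, ∃ p : ℕ, p.Prime ∧ p ≤ N ∧ a = x + s * p) ∧
    δ * (N / Real.log N) ≤ A.card

/-- The number of representations `n ≡ a + b + c` modulo `d`, `a ∈ A`, `b ∈ B`, `c ∈ C`, of the residue class
`n` modulo `d`. -/
def reps (d : ℕ) (A B C : Finset ℤ) (n : ZMod d) : ℕ :=
  ((A ×ˢ (B ×ˢ C)).filter (fun t => ((t.1 + t.2.1 + t.2.2 : ℤ) : ZMod d) = n)).card

/-- For all positive `δ, ε, η` and `0 < γ ≤ 1` there are `κ, c > 0` and `d₀` such that for all moduli `d ≥ d₀` all
of whose prime factors are larger than `d ^ η`, all `N` with `d ^ γ ≤ N ≤ d` and any three sets `A`, `B`, `C`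
which are dense at the scale `N` there are at least `N ^ (1 - ε)` reduced residue classes `n` modulo `d` with at
least `c |A| |B| |C| / N` representations `n ≡ a + b + c` modulo `d`, such that every prime `q ≡ n` modulo `d`
is larger than `κ d f(d)`. -/
theorem result (δ ε γ η : ℝ) (hδ : 0 < δ) (hε : 0 < ε) (hγ : 0 < γ) (hγ1 : γ ≤ 1) (hη : 0 < η) :
    ∃ κ : ℝ, 0 < κ ∧ ∃ c : ℝ, 0 < c ∧ ∃ d₀ : ℕ, ∀ d : ℕ, d₀ ≤ d →
    (∀ p : ℕ, p.Prime → p ∣ d → (d : ℝ) ^ η < p) →
    ∀ N : ℕ, (d : ℝ) ^ γ ≤ N → N ≤ d →
    ∀ A B C : Finset ℤ, Dense δ N A → Dense δ N B → Dense δ N C →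
    ∃ 𝒮 : Finset (ZMod d), (N : ℝ) ^ (1 - ε) ≤ 𝒮.card ∧ ∀ n ∈ 𝒮, IsUnit n ∧
      c * (A.card * B.card * C.card / N) ≤ reps d A B C n ∧
      ∀ q : ℕ, q.Prime → (q : ZMod d) = n → κ * (d * f d) < q :=
  Pool.Agent.H602SS.finalD δ ε γ η hδ hε hγ hγ1 hη

/-- A consequence: for every `δ > 0` there is `κ > 0` such that for all large primes `d` and any three sets of
at least `δ d` residue classes modulo `d` some sum `n = a + b + c` of elements of the three sets is a nonzero
class and the least prime in the class `n` is larger than `κ d f(d)`. -/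
theorem classes (δ : ℝ) (hδ : 0 < δ) : ∃ κ : ℝ, 0 < κ ∧ ∃ d₀ : ℕ, ∀ d : ℕ, d₀ ≤ d → d.Prime →
    ∀ A B C : Finset (ZMod d), δ * d ≤ A.card → δ * d ≤ B.card → δ * d ≤ C.card →
    ∃ a ∈ A, ∃ b ∈ B, ∃ c ∈ C, a + b + c ≠ 0 ∧
      ∀ q : ℕ, q.Prime → (q : ZMod d) = a + b + c → κ * (d * f d) < q := by
  classical
  obtain ⟨κ, hκ, c, hc, d₀, h⟩ := result δ 1 1 (1 / 2) hδ one_pos one_pos le_rfl (by norm_num)
  refine ⟨κ, hκ, d₀, ?_⟩
  intro d hd hdp A B C hA hB hC
  have : NeZero d := ⟨hdp.ne_zero⟩
  have hd1 : (1 : ℝ) < d := by exact_mod_cast hdp.one_lt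
  have hd0 : (0 : ℝ) < d := by linarith
  have hinj : Function.Injective (fun a : ZMod d => ((a.val : ℕ) : ℤ)) := fun a b hab => by
    have : (a.val : ℤ) = b.val := hab
    exact ZMod.val_injective d (by exact_mod_cast this)
  have hdense : ∀ E : Finset (ZMod d), δ * d ≤ E.card →
      Dense δ d (E.image (fun a : ZMod d => ((a.val : ℕ) : ℤ))) := by
    intro E hE
    refine Or.inl ⟨-1, ?_, ?_⟩
    · intro b hb
      obtain ⟨a, -, rfl⟩ := mem_image.1 hb
      have := ZMod.val_lt a
      rw [mem_Ioc]
      omega
    · rw [card_image_of_injective _ hinj]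
      exact hE
  have hcard : ∀ E : Finset (ZMod d), δ * d ≤ E.card →
      (0 : ℝ) < ((E.image (fun a : ZMod d => ((a.val : ℕ) : ℤ))).card : ℝ) := by
    intro E hE
    rw [card_image_of_injective _ hinj]
    exact lt_of_lt_of_le (by positivity) hE
  obtain ⟨S, hS1, hS⟩ := h d hd (by
    intro p hp hpd
    rw [(Nat.prime_dvd_prime_iff_eq hp hdp).1 hpd]
    calc (d : ℝ) ^ (1 / 2 : ℝ) < (d : ℝ) ^ (1 : ℝ) :=
          Real.rpow_lt_rpow_of_exponent_lt hd1 (by norm_num)
      _ = d := Real.rpow_one _) d (by rw [Real.rpow_one]) le_rfl _ _ _ (hdense A hA) (hdense B hB)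
    (hdense C hC)
  have hSne : S.Nonempty := by
    rw [← card_pos]
    have : (0 : ℝ) < S.card := lt_of_lt_of_le (by positivity) hS1
    exact_mod_cast this
  obtain ⟨n, hn⟩ := hSne
  obtain ⟨h0, h1, h2⟩ := hS n hn
  have p1 := hcard A hA
  have p2 := hcard B hB
  have p3 := hcard C hC
  have h3 := lt_of_lt_of_le (by positivity) h1
  have h4 := Nat.cast_pos.1 h3
  obtain ⟨t, ht⟩ := card_pos.1 h4
  rw [mem_filter, mem_product, mem_product] at ht
  obtain ⟨⟨ha, hb, hc'⟩, ht⟩ := ht
  obtain ⟨a, ha1, ha2⟩ := mem_image.1 ha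
  obtain ⟨b, hb1, hb2⟩ := mem_image.1 hb
  obtain ⟨e, he1, he2⟩ := mem_image.1 hc'
  have hsum : a + b + e = n := by
    rw [← ht, ← ha2, ← hb2, ← he2]
    push_cast
    rw [ZMod.natCast_zmod_val, ZMod.natCast_zmod_val, ZMod.natCast_zmod_val]
  refine ⟨a, ha1, b, hb1, e, he1, ?_, ?_⟩
  · rw [hsum]
    have : Fact (1 < d) := ⟨hdp.one_lt⟩
    exact h0.ne_zero
  · intro q hq hqn
    exact h2 q hq (hqn.trans hsum)

end Pool.Agent.Results.MP_458f0b_nt.SumsOfThreeDenseSets
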